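import Pool.Agent.V11234.AH.Perm
import Pool.Agent.H330.Ramsey

/-! Combinatorial lemmas: limits up to permutations along an ultrafilter, and canonical forms of
operations on `ℕ`. -/

namespace Pool.Agent.V11234.AH

open Equiv Filter

/-- Countably many sequences of natural numbers converge, along an ultrafilter, up to
permutations. -/
theorem exists_lim {J : Type} [Countable J] (U : Ultrafilter ℕ) (c : J → ℕ → ℕ) :
    ∃ τ : J → ℕ, ∀ F : Finset J, ∀ᶠ k in (U : Filter ℕ), ∃ g : Perm ℕ, ∀ j ∈ F, g (c j k) = τ j := by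
  classical
  let r : Setoid J :=
    { r := fun i j => ∀ᶠ k in (U : Filter ℕ), c i k = c j k
      iseqv := ⟨fun i => Eventually.of_forall fun k => rfl, fun h => h.mono fun k hk => hk.symm,
        fun h1 h2 => (h1.and h2).mono fun k hk => hk.1.trans hk.2⟩ }
  obtain ⟨ι, hι⟩ : ∃ ι : Quotient r → ℕ, Function.Injective ι := exists_injective_nat _
  refine ⟨fun j => ι ⟦j⟧, fun F => ?_⟩
  have hkey : ∀ᶠ k in (U : Filter ℕ), ∀ i ∈ F, ∀ j ∈ F,
      (c i k = c j k ↔ (⟦i⟧ : Quotient r) = ⟦j⟧) := by
    rw [eventually_all_finset]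
    intro i _
    rw [eventually_all_finset]
    intro j _
    by_cases h : ∀ᶠ k in (U : Filter ℕ), c i k = c j k
    · filter_upwards [h] with k hk
      exact ⟨fun _ => Quotient.sound h, fun _ => hk⟩
    · have h' : ∀ᶠ k in (U : Filter ℕ), ¬ c i k = c j k := Ultrafilter.eventually_not.2 h
      filter_upwards [h'] with k hk
      exact ⟨fun h'' => absurd h'' hk, fun h'' => absurd (Quotient.exact h'') h⟩
  filter_upwards [hkey] with k hk
  -- the partial injection `c j k ↦ ι ⟦j⟧`
  have hex : ∀ x : ℕ, ∃ y : ℕ, ∀ j ∈ F, c j k = x → y = ι ⟦j⟧ := by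
    intro x
    by_cases h : ∃ j ∈ F, c j k = x
    · obtain ⟨j, hj, hjx⟩ := h
      refine ⟨ι ⟦j⟧, fun j' hj' hjx' => ?_⟩
      rw [(hk j hj j' hj').1 (hjx.trans hjx'.symm)]
    · exact ⟨0, fun j hj hjx => absurd ⟨j, hj, hjx⟩ h⟩
  choose e he using hex
  obtain ⟨g, hg⟩ := exists_perm_of_injOn (F.image fun j => c j k) e (by
    intro x hx y hy hxy
    rw [Finset.mem_coe, Finset.mem_image] at hx hy
    obtain ⟨i, hi, rfl⟩ := hx
    obtain ⟨j, hj, rfl⟩ := hy
    rw [he _ i hi rfl, he _ j hj rfl] at hxy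
    exact (hk i hi j hj).2 (hι hxy))
  refine ⟨g, fun j hj => ?_⟩
  rw [hg _ (Finset.mem_image_of_mem _ hj), he _ j hj rfl]

/-- two functions with the same kernel and coinfinite images differ by a permutation -/
theorem exists_perm_of_kernel {X : Type} (f f' : X → ℕ) (h : ∀ x y, f x = f y ↔ f' x = f' y)
    (h1 : (Set.range f)ᶜ.Infinite) (h2 : (Set.range f')ᶜ.Infinite) :
    ∃ g : Perm ℕ, ∀ x, g (f x) = f' x := by
  classical
  have hex : ∀ n : ℕ, ∃ m : ℕ, ∀ x, f x = n → f' x = m := by
    intro n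
    by_cases hn : ∃ x, f x = n
    · obtain ⟨x, hx⟩ := hn
      exact ⟨f' x, fun y hy => (h y x).1 (hy.trans hx.symm)⟩
    · exact ⟨0, fun x hx => absurd ⟨x, hx⟩ hn⟩
  choose φ hφ using hex
  have hφ' : ∀ x, φ (f x) = f' x := fun x => (hφ _ x rfl).symm
  have himg : φ '' Set.range f = Set.range f' := by
    ext y
    constructor
    · rintro ⟨_, ⟨x, rfl⟩, rfl⟩
      exact ⟨x, (hφ' x).symm⟩
    · rintro ⟨x, rfl⟩
      exact ⟨f x, ⟨x, rfl⟩, hφ' x⟩
  obtain ⟨g, _, hg⟩ := exists_extend (X := Set.univ) (B := Set.range f) (φ := φ)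
    (Set.subset_univ _) (by
      rintro _ ⟨x, rfl⟩ _ ⟨y, rfl⟩ hxy
      rw [hφ', hφ'] at hxy
      exact (h x y).2 hxy) (fun x _ => Set.mem_univ _)
    (by rwa [← Set.compl_eq_univ_sdiff])
    (by rwa [← Set.compl_eq_univ_sdiff, himg])
  exact ⟨g, fun x => by rw [hg _ ⟨x, rfl⟩, hφ']⟩

/-- strictly increasing maps fixing an initial segment -/
def Good (M : ℕ) (δ : ℕ → ℕ) : Prop := StrictMono δ ∧ ∀ x, x < M → δ x = x

theorem Good.ge {M : ℕ} {δ : ℕ → ℕ} (h : Good M δ) {x : ℕ} (hx : M ≤ x) : M ≤ δ x :=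
  hx.trans h.1.le_apply

theorem Good.comp {M : ℕ} {δ δ' : ℕ → ℕ} (h : Good M δ) (h' : Good M δ') : Good M (δ ∘ δ') :=
  ⟨h.1.comp h'.1, fun x hx => by rw [Function.comp_apply, h'.2 x hx, h.2 x hx]⟩

theorem good_id (M : ℕ) : Good M id := ⟨strictMono_id, fun _ _ => rfl⟩

/-- the strictly increasing map fixing `[0, M)` with the rest of the image `M + P` -/
noncomputable def enumP (M : ℕ) (P : Set ℕ) (x : ℕ) : ℕ :=
  if x < M then x else M + Nat.nth (· ∈ P) (x - M)

theorem enumP_good (M : ℕ) {P : Set ℕ} (hP : P.Infinite) : Good M (enumP M P) := by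
  have hmono : StrictMono (Nat.nth (· ∈ P)) := Nat.nth_strictMono hP
  refine ⟨fun x y hxy => ?_, fun x hx => by simp only [enumP, if_pos hx]⟩
  unfold enumP
  by_cases hx : x < M <;> by_cases hy : y < M
  · rw [if_pos hx, if_pos hy]; exact hxy
  · rw [if_pos hx, if_neg hy]; omega
  · omega
  · rw [if_neg hx, if_neg hy]
    have := hmono (show x - M < y - M by omega)
    omega

variable {N : ℕ}

/-- the kernel of an operation on the initial segment `[0, M + 2N)` -/
def col (M : ℕ) (f : (Fin N → ℕ) → ℕ) :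
    (Fin N → Fin (M + 2 * N)) → (Fin N → Fin (M + 2 * N)) → Prop :=
  fun s t => f (fun i => s i) = f (fun i => t i)

/-- an operation whose kernel is invariant under order preserving changes of coordinates -/
def Canonical (M : ℕ) (f : (Fin N → ℕ) → ℕ) : Prop :=
  ∀ δ : ℕ → ℕ, Good M δ → ∀ s t : Fin N → Fin (M + 2 * N),
    (f (fun i => δ (s i)) = f (fun i => δ (t i)) ↔ f (fun i => s i) = f (fun i => t i))

theorem exists_canonical (M : ℕ) (f : (Fin N → ℕ) → ℕ) :
    ∃ e, Good M e ∧ Canonical M (fun x => f (fun i => e (x i))) := by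
  classical
  let ext : Finset ℕ → ℕ → ℕ := fun W x =>
    if x < M then x else if h : W.card = 2 * N ∧ x - M < 2 * N then
      M + W.orderEmbOfFin h.1 ⟨x - M, h.2⟩ else 0
  let c : Finset ℕ → ((Fin N → Fin (M + 2 * N)) → (Fin N → Fin (M + 2 * N)) → Prop) :=
    fun W s t => f (fun i => ext W (s i)) = f (fun i => ext W (t i))
  obtain ⟨P, c0, hP, hc0⟩ := Pool.Agent.H330.infinite_ramsey (2 * N) c
  have hg : Good M (enumP M P) := enumP_good M hP
  have key : ∀ δ : ℕ → ℕ, Good M δ → ∀ s t : Fin N → Fin (M + 2 * N),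
      (f (fun i => enumP M P (δ (s i))) = f (fun i => enumP M P (δ (t i))) ↔ c0 s t) := by
    intro δ hδ s t
    have hmono : StrictMono (Nat.nth (· ∈ P)) := Nat.nth_strictMono hP
    let w : Fin (2 * N) → ℕ := fun j => Nat.nth (· ∈ P) (δ (M + j) - M)
    have hw : StrictMono w := by
      intro i j hij
      apply hmono
      have h1 : δ (M + i) < δ (M + j) := hδ.1 (by
        have : (i : ℕ) < j := hij
        omega)
      have h2 := hδ.ge (show M ≤ M + i by omega)
      omega
    let W : Finset ℕ := Finset.univ.image w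
    have hWc : W.card = 2 * N := by
      rw [Finset.card_image_of_injective _ hw.injective, Finset.card_univ, Fintype.card_fin]
    have hWP : (W : Set ℕ) ⊆ P := by
      intro x hx
      rw [Finset.mem_coe, Finset.mem_image] at hx
      obtain ⟨j, _, rfl⟩ := hx
      exact Nat.nth_mem_of_infinite hP _
    have hcW := hc0 W hWc hWP
    have hemb : w = W.orderEmbOfFin hWc :=
      Finset.orderEmbOfFin_unique hWc (fun x => Finset.mem_image_of_mem _ (Finset.mem_univ _)) hw
    have hext : ∀ x : Fin (M + 2 * N), ext W x = enumP M P (δ x) := by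
      intro x
      by_cases hx : (x : ℕ) < M
      · simp only [ext, if_pos hx]
        rw [hδ.2 _ hx, hg.2 _ hx]
      · have h1 : (x : ℕ) - M < 2 * N := by have := x.2; omega
        have h2 := hδ.ge (show M ≤ (x : ℕ) by omega)
        simp only [ext, if_neg hx, dif_pos (And.intro hWc h1)]
        rw [← hemb]
        simp only [w, enumP]
        rw [if_neg (by omega), show M + ((x : ℕ) - M) = x by omega]
    rw [← hcW]
    simp only [c, hext]
  refine ⟨enumP M P, hg, fun δ hδ s t => ?_⟩
  rw [key δ hδ s t]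
  exact (key id (good_id M) s t).symm

theorem canonical_kernel (M : ℕ) {f f' : (Fin N → ℕ) → ℕ} (hf : Canonical M f)
    (hf' : Canonical M f') (hcol : col M f = col M f') (x y : Fin N → ℕ) :
    f x = f y ↔ f' x = f' y := by
  classical
  -- a good map whose range on `[0, M + 2N)` contains all coordinates
  obtain ⟨δ, hδ, s, t, hs, ht⟩ : ∃ δ, Good M δ ∧ ∃ s t : Fin N → Fin (M + 2 * N),
      (∀ i, δ (s i) = x i) ∧ ∀ i, δ (t i) = y i := by
    let v : Fin N ⊕ Fin N → ℕ := Sum.elim x y
    let W : Finset ℕ := Finset.univ.image (fun a => v a - M)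
    have hWc : W.card ≤ 2 * N := by
      refine Finset.card_image_le.trans ?_
      rw [Finset.card_univ, Fintype.card_sum, Fintype.card_fin]
      omega
    let P : Set ℕ := {n | n ∈ W ∨ ∀ w ∈ W, w < n}
    have hP : P.Infinite := by
      have hsub : Set.Ioi (W.sup id) ⊆ P := by
        intro n hn
        refine Or.inr fun w hw => ?_
        exact lt_of_le_of_lt (Finset.le_sup (f := id) hw) hn
      exact (Set.Ioi_infinite _).mono hsub
    have hpos : ∀ a, ∃ k : Fin (M + 2 * N), enumP M P k = v a := by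
      intro a
      by_cases ha : v a < M
      · exact ⟨⟨v a, by omega⟩, by simp only [enumP, if_pos ha]⟩
      · have hmem : v a - M ∈ W := Finset.mem_image_of_mem _ (Finset.mem_univ a)
        have hcount : Nat.count (· ∈ P) (v a - M) < 2 * N := by
          rw [Nat.count_eq_card_filter_range]
          refine lt_of_lt_of_le ?_ hWc
          apply Finset.card_lt_card
          rw [Finset.ssubset_iff_of_subset]
          · refine ⟨v a - M, hmem, ?_⟩
            simp
          · intro n hn
            rw [Finset.mem_filter, Finset.mem_range] at hn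
            rcases hn.2 with h | h
            · exact h
            · have := h _ hmem
              omega
        refine ⟨⟨M + Nat.count (· ∈ P) (v a - M), by omega⟩, ?_⟩
        simp only [enumP]
        rw [if_neg (by omega), Nat.add_sub_cancel_left, Nat.nth_count (p := (· ∈ P)) (Or.inl hmem)]
        omega
    choose k hk using hpos
    exact ⟨enumP M P, enumP_good M hP, fun i => k (Sum.inl i), fun i => k (Sum.inr i),
      fun i => hk _, fun i => hk _⟩
  have hx : x = fun i => δ (s i) := funext fun i => (hs i).symm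
  have hy : y = fun i => δ (t i) := funext fun i => (ht i).symm
  rw [hx, hy, hf δ hδ s t, hf' δ hδ s t]
  exact Eq.to_iff (congrFun (congrFun hcol s) t)

end Pool.Agent.V11234.AH
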