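import Pool.Agent.V11234.AH.Comb

/-! The core of the proof: clone isomorphisms from a closed clone containing all permutations of a
countable set onto a closed clone are homeomorphisms. -/

namespace Pool.Agent.V11234.AH

open Equiv Filter

/-- operations of arity `n + 1` -/
abbrev Opn (n : ℕ) : Type := (Fin (n + 1) → ℕ) → ℕ

/-- a unary map as an operation -/
def un (u : ℕ → ℕ) : Opn 0 := fun x => u (x 0)

/-- `X` is an isomorphism from the closed clone `C`, which contains all permutations, onto the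
closed clone `D` -/
structure Setup (C D : ∀ n : ℕ, Set (Opn n)) (X : ∀ n, Opn n → Opn n) : Prop where
  projC : ∀ n (i : Fin (n + 1)), (fun x => x i : Opn n) ∈ C n
  compC : ∀ n m (f : Opn n) (g : Fin (n + 1) → Opn m), f ∈ C n → (∀ i, g i ∈ C m) →
    (fun x => f (fun i => g i x) : Opn m) ∈ C m
  permC : ∀ g : Perm ℕ, un g ∈ C 0
  closedC : ∀ n (f : Opn n), (∀ B : Finset (Fin (n + 1) → ℕ), ∃ f' ∈ C n, ∀ b ∈ B, f' b = f b) →
    f ∈ C n
  closedD : ∀ n (f : Opn n), (∀ B : Finset (Fin (n + 1) → ℕ), ∃ f' ∈ D n, ∀ b ∈ B, f' b = f b) →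
    f ∈ D n
  maps : ∀ n (f : Opn n), f ∈ C n → X n f ∈ D n
  surj : ∀ n (h : Opn n), h ∈ D n → ∃ f ∈ C n, X n f = h
  inj : ∀ n (f f' : Opn n), f ∈ C n → f' ∈ C n → X n f = X n f' → f = f'
  Xproj : ∀ n (i : Fin (n + 1)), X n (fun x => x i) = fun x => x i
  Xcomp : ∀ n m (f : Opn n) (g : Fin (n + 1) → Opn m), f ∈ C n → (∀ i, g i ∈ C m) →
    X m (fun x => f (fun i => g i x)) = fun x => X n f (fun i => X m (g i) x)

namespace Setup

/-- the action on unary maps -/
def R (X : ∀ n, Opn n → Opn n) (u : ℕ → ℕ) : ℕ → ℕ := fun y => X 0 (un u) (fun _ => y)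

theorem eta (x : Fin 1 → ℕ) : (fun _ => x 0) = x := by
  funext i
  rw [Subsingleton.elim i 0]

theorem X_un (X : ∀ n, Opn n → Opn n) (u : ℕ → ℕ) : X 0 (un u) = un (R X u) := by
  funext x
  show X 0 (un u) x = X 0 (un u) (fun _ => x 0)
  rw [eta]

theorem exists_un (f : Opn 0) : ∃ u : ℕ → ℕ, f = un u := by
  refine ⟨fun y => f (fun _ => y), ?_⟩
  funext x
  show f x = f (fun _ => x 0)
  rw [eta]

variable {C D : ∀ n : ℕ, Set (Opn n)} {X : ∀ n, Opn n → Opn n} (S : Setup C D X)

include S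

theorem un_comp {u v : ℕ → ℕ} (hu : un u ∈ C 0) (hv : un v ∈ C 0) : un (u ∘ v) ∈ C 0 :=
  S.compC 0 0 (un u) (fun _ => un v) hu (fun _ => hv)

theorem R_id : R X id = id := by
  funext y
  show X 0 (un id) (fun _ => y) = y
  have : (un id : Opn 0) = fun x => x 0 := rfl
  rw [this, S.Xproj 0 0]

theorem R_comp {u v : ℕ → ℕ} (hu : un u ∈ C 0) (hv : un v ∈ C 0) :
    R X (u ∘ v) = R X u ∘ R X v := by
  funext y
  show X 0 (un (u ∘ v)) (fun _ => y) = X 0 (un u) (fun _ => X 0 (un v) (fun _ => y))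
  have := S.Xcomp 0 0 (un u) (fun _ => un v) hu (fun _ => hv)
  exact congrFun this (fun _ => y)

theorem R_inj {u v : ℕ → ℕ} (hu : un u ∈ C 0) (hv : un v ∈ C 0) (h : R X u = R X v) : u = v := by
  have h1 : X 0 (un u) = X 0 (un v) := by rw [X_un X u, X_un X v, h]
  have h2 := S.inj 0 _ _ hu hv h1
  funext y
  exact congrFun h2 (fun _ => y)

theorem post_mem {n : ℕ} {u : ℕ → ℕ} {f : Opn n} (hu : un u ∈ C 0) (hf : f ∈ C n) :
    (fun x => u (f x) : Opn n) ∈ C n :=
  S.compC 0 n (un u) (fun _ => f) hu (fun _ => hf)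

theorem X_post {n : ℕ} {u : ℕ → ℕ} {f : Opn n} (hu : un u ∈ C 0) (hf : f ∈ C n) (x) :
    X n (fun x => u (f x)) x = R X u (X n f x) :=
  congrFun (S.Xcomp 0 n (un u) (fun _ => f) hu (fun _ => hf)) x

theorem coord_mem {n : ℕ} {u : ℕ → ℕ} (hu : un u ∈ C 0) (i : Fin (n + 1)) :
    (fun x => u (x i) : Opn n) ∈ C n :=
  S.post_mem hu (S.projC n i)

theorem X_coord {n : ℕ} {u : ℕ → ℕ} (hu : un u ∈ C 0) (i : Fin (n + 1)) (x) :
    X n (fun x => u (x i)) x = R X u (x i) := by
  rw [S.X_post hu (S.projC n i), S.Xproj]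

theorem pre_mem {n : ℕ} {u : ℕ → ℕ} {f : Opn n} (hu : un u ∈ C 0) (hf : f ∈ C n) :
    (fun x => f (fun i => u (x i)) : Opn n) ∈ C n :=
  S.compC n n f (fun i x => u (x i)) hf (fun i => S.coord_mem hu i)

theorem X_pre {n : ℕ} {u : ℕ → ℕ} {f : Opn n} (hu : un u ∈ C 0) (hf : f ∈ C n) (x) :
    X n (fun x => f (fun i => u (x i))) x = X n f (fun i => R X u (x i)) := by
  rw [S.Xcomp n n f (fun i x => u (x i)) hf (fun i => S.coord_mem hu i)]
  show X n f (fun i => X n (fun x => u (x i)) x) = X n f (fun i => R X u (x i))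
  congr 1
  funext i
  exact S.X_coord hu i x

theorem diag_mem {n : ℕ} {u : Fin (n + 1) → ℕ → ℕ} {f : Opn n} (hu : ∀ i, un (u i) ∈ C 0)
    (hf : f ∈ C n) : un (fun y => f (fun i => u i y)) ∈ C 0 :=
  S.compC n 0 f (fun i => un (u i)) hf hu

theorem R_diag {n : ℕ} {u : Fin (n + 1) → ℕ → ℕ} {f : Opn n} (hu : ∀ i, un (u i) ∈ C 0)
    (hf : f ∈ C n) (y : ℕ) :
    R X (fun y => f (fun i => u i y)) y = X n f (fun i => R X (u i) y) :=
  congrFun (S.Xcomp n 0 f (fun i => un (u i)) hf hu) (fun _ => y)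

/-- action of permutations -/
theorem R_mul (g h : Perm ℕ) (y : ℕ) : R X (g * h : Perm ℕ) y = R X g (R X h y) :=
  congrFun (S.R_comp (S.permC g) (S.permC h)) y

theorem R_one (y : ℕ) : R X (1 : Perm ℕ) y = y := congrFun S.R_id y

theorem R_inv_apply (g : Perm ℕ) (y : ℕ) : R X (g⁻¹ : Perm ℕ) (R X g y) = y := by
  rw [← S.R_mul, inv_mul_cancel, S.R_one]

theorem R_apply_inv (g : Perm ℕ) (y : ℕ) : R X g (R X (g⁻¹ : Perm ℕ) y) = y := by
  rw [← S.R_mul, mul_inv_cancel, S.R_one]

theorem R_perm_inj (g : Perm ℕ) {y z : ℕ} (h : R X g y = R X g z) : y = z := by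
  rw [← S.R_inv_apply g y, h, S.R_inv_apply]

/-- finite supports, from the small index property -/
theorem exists_supp (p : ℕ) : ∃ A : Finset ℕ, ∀ g : Perm ℕ, (∀ a ∈ A, g a = a) → R X g p = p := by
  let H : Subgroup (Perm ℕ) :=
    { carrier := {g | R X g p = p}
      mul_mem' := by
        intro g h hg hh
        show R X (g * h : Perm ℕ) p = p
        rw [S.R_mul, show R X h p = p from hh]
        exact hg
      one_mem' := S.R_one p
      inv_mem' := by
        intro g hg
        show R X (g⁻¹ : Perm ℕ) p = p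
        have h1 : R X g p = p := hg
        rw [← h1, S.R_inv_apply, h1] }
  obtain ⟨A, hA⟩ := small_index H (fun g => R X g p) (by
    intro g h hgh
    show R X (g⁻¹ * h : Perm ℕ) p = p
    have hgh' : R X g p = R X h p := hgh
    rw [S.R_mul, ← hgh', S.R_inv_apply])
  exact ⟨A, hA⟩

/-- a support of `p` -/
noncomputable def A (p : ℕ) : Finset ℕ := (S.exists_supp p).choose

theorem R_eq_of_A {p : ℕ} {g h : Perm ℕ} (hgh : ∀ a ∈ S.A p, g a = h a) : R X g p = R X h p := by
  have h1 : R X (h⁻¹ * g : Perm ℕ) p = p := by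
    apply (S.exists_supp p).choose_spec
    intro a ha
    rw [Perm.mul_apply, hgh a ha, pinv_apply]
  rw [S.R_mul] at h1
  rw [← S.R_apply_inv h (R X g p), h1]

theorem inj_mem {e : ℕ → ℕ} (he : Function.Injective e) : un e ∈ C 0 := by
  classical
  apply S.closedC
  intro B
  obtain ⟨g, hg⟩ := exists_perm_of_injOn (B.image fun b => b 0) e he.injOn
  exact ⟨un g, S.permC g, fun b hb => hg _ (Finset.mem_image_of_mem _ hb)⟩

/-- the extension of the action to injections by continuity -/
theorem exists_bar {e : ℕ → ℕ} (he : Function.Injective e) : ∃ h : ℕ → ℕ, un h ∈ C 0 ∧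
    ∀ (p : ℕ) (g : Perm ℕ), (∀ a ∈ S.A p, g a = e a) → R X h p = R X g p := by
  classical
  have hex : ∀ p, ∃ g : Perm ℕ, ∀ a ∈ S.A p, g a = e a := fun p =>
    exists_perm_of_injOn _ e he.injOn
  choose g hg using hex
  have h1 : un (fun p => R X (g p) p) ∈ D 0 := by
    apply S.closedD
    intro B
    obtain ⟨g', hg'⟩ := exists_perm_of_injOn (B.biUnion fun b => S.A (b 0)) e he.injOn
    refine ⟨X 0 (un g'), S.maps 0 _ (S.permC g'), fun b hb => ?_⟩
    rw [X_un X g']
    show R X g' (b 0) = R X (g (b 0)) (b 0)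
    apply S.R_eq_of_A
    intro a ha
    rw [hg _ a ha, hg' a (Finset.mem_biUnion.2 ⟨b, hb, ha⟩)]
  obtain ⟨f, hf, hfX⟩ := S.surj 0 _ h1
  obtain ⟨h, rfl⟩ := exists_un f
  refine ⟨h, hf, fun p g' hg' => ?_⟩
  have h2 : R X h p = R X (g p) p := congrFun hfX (fun _ => p)
  rw [h2]
  apply S.R_eq_of_A
  intro a ha
  rw [hg _ a ha, hg' a ha]

/-- `e'` represents the continuous extension of `e` -/
def IsBar (e h : ℕ → ℕ) : Prop := un h ∈ C 0 ∧
    ∀ (p : ℕ) (g : Perm ℕ), (∀ a ∈ S.A p, g a = e a) → R X h p = R X g p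

theorem bar_commute {e h : ℕ → ℕ} (he : Function.Injective e) (hh : S.IsBar e h) (g g' : Perm ℕ)
    (hgg : ∀ x, g (e x) = e (g' x)) : ∀ x, g (h x) = h (g' x) := by
  classical
  have h1 : R X (g ∘ h) = R X (h ∘ g') := by
    rw [S.R_comp (S.permC g) hh.1, S.R_comp hh.1 (S.permC g')]
    funext p
    show R X g (R X h p) = R X h (R X g' p)
    obtain ⟨g1, hg1⟩ := exists_perm_of_injOn (S.A (R X g' p) ∪ (S.A p).image g') e he.injOn
    obtain ⟨g2, hg2⟩ := exists_perm_of_injOn (S.A p) e he.injOn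
    rw [hh.2 _ g1 (fun a ha => hg1 a (Finset.mem_union_left _ ha)), hh.2 p g2 hg2,
      ← S.R_mul, ← S.R_mul]
    apply S.R_eq_of_A
    intro a ha
    rw [Perm.mul_apply, Perm.mul_apply, hg2 a ha,
      hg1 _ (Finset.mem_union_right _ (Finset.mem_image_of_mem _ ha)), hgg]
  have h2 := S.R_inj (S.un_comp (S.permC g) hh.1) (S.un_comp hh.1 (S.permC g')) h1
  exact fun x => congrFun h2 x

theorem bar_eq_of_coinf {e h : ℕ → ℕ} (he : Function.Injective e) (hh : S.IsBar e h)
    (hinf : (Set.range e)ᶜ.Infinite) : h = e := by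
  classical
  have hrange : ∀ x, ∃ y, e y = h x := by
    intro x
    by_contra hc
    obtain ⟨z, hz, hzne⟩ := (hinf.sdiff (Set.finite_singleton (h x))).nonempty
    have h1 := S.bar_commute he hh (swap (h x) z) 1 (by
      intro y
      rw [swap_apply_of_ne_of_ne]
      · rfl
      · intro h2; exact hc ⟨y, h2⟩
      · intro h2; exact hz ⟨y, h2⟩) x
    rw [swap_apply_left] at h1
    exact hzne h1
  choose u hu using hrange
  have hu2 : ∀ (g' : Perm ℕ) x, u (g' x) = g' (u x) := by
    intro g' x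
    let ι : ℕ ↪ ℕ := ⟨e, he⟩
    have h1 := S.bar_commute he hh (g'.viaEmbedding ι) g' (fun y =>
      Equiv.Perm.viaEmbedding_apply g' ι y) x
    rw [← hu x, ← hu (g' x)] at h1
    have h2 : (g'.viaEmbedding ι) (e (u x)) = e (g' (u x)) :=
      Equiv.Perm.viaEmbedding_apply g' ι (u x)
    rw [h2] at h1
    exact (he h1).symm
  have hid : ∀ x, u x = x := by
    intro x
    by_contra hne
    obtain ⟨z, hz⟩ := Infinite.exists_notMem_finset ({x, u x} : Finset ℕ)
    simp only [Finset.mem_insert, Finset.mem_singleton, not_or] at hz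
    have h1 := hu2 (swap (u x) z) x
    rw [swap_apply_left, swap_apply_of_ne_of_ne (Ne.symm hne) (Ne.symm hz.1)] at h1
    exact hz.2 h1.symm
  funext x
  rw [← hu x, hid x]

/-- a fixed injection with coinfinite image -/
def dbl (x : ℕ) : ℕ := 2 * x

omit S in
theorem dbl_inj : Function.Injective dbl := fun x y h => by unfold dbl at h; omega

omit S in
theorem dbl_range {Y : Type} (f : Y → ℕ) : (Set.range fun y => dbl (f y))ᶜ.Infinite := by
  have : Set.range (fun k : ℕ => 2 * k + 1) ⊆ (Set.range fun y => dbl (f y))ᶜ := by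
    rintro _ ⟨k, rfl⟩ ⟨y, hy⟩
    simp only [dbl] at hy
    omega
  refine (Set.infinite_range_of_injective ?_).mono this
  intro x y h
  simp only at h
  omega

/-- The isomorphism is continuous on the injections. -/
theorem R_of_inj {e : ℕ → ℕ} (he : Function.Injective e) (p : ℕ) (g : Perm ℕ)
    (hg : ∀ a ∈ S.A p, g a = e a) : R X e p = R X g p := by
  classical
  obtain ⟨h, hh⟩ := S.exists_bar he
  obtain ⟨h0, hh0⟩ := S.exists_bar dbl_inj
  obtain ⟨h1, hh1⟩ := S.exists_bar (dbl_inj.comp he)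
  have e0 : h0 = dbl := S.bar_eq_of_coinf dbl_inj hh0 (dbl_range id)
  have e1 : h1 = dbl ∘ e := S.bar_eq_of_coinf (dbl_inj.comp he) hh1 (dbl_range e)
  rw [e0] at hh0
  rw [e1] at hh1
  have key : R X (dbl ∘ h) = R X (dbl ∘ e) := by
    rw [S.R_comp hh0.1 hh.1]
    funext q
    obtain ⟨g1, hg1⟩ := exists_perm_of_injOn (S.A q) e he.injOn
    rw [Function.comp_apply, hh.2 q g1 hg1]
    obtain ⟨g0, hg0⟩ := exists_perm_of_injOn (S.A (R X g1 q) ∪ (S.A q).image g1) dbl
      dbl_inj.injOn
    rw [hh0.2 _ g0 (fun a ha => hg0 a (Finset.mem_union_left _ ha)), ← S.R_mul]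
    refine (hh1.2 q _ ?_).symm
    intro a ha
    rw [Perm.mul_apply, hg0 _ (Finset.mem_union_right _ (Finset.mem_image_of_mem _ ha)), hg1 a ha]
    rfl
  have h2 := S.R_inj (S.un_comp hh0.1 hh.1) hh1.1 key
  have h3 : h = e := by
    funext x
    exact dbl_inj (congrFun h2 x)
  rw [h3] at hh
  exact hh.2 p g hg

/-- either all unary members are injective, or all constants belong to the clone -/
theorem dichotomy : (∀ u : ℕ → ℕ, un u ∈ C 0 → Function.Injective u) ∨
    ∀ a : ℕ, un (fun _ => a) ∈ C 0 := by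
  classical
  by_cases h : ∀ u : ℕ → ℕ, un u ∈ C 0 → Function.Injective u
  · exact Or.inl h
  right
  push Not at h
  obtain ⟨u, hu, hni⟩ := h
  simp only [Function.Injective, not_forall] at hni
  obtain ⟨a, b, hab, hne⟩ := hni
  -- collapsing finite sets
  have hcol : ∀ n : ℕ, ∀ F : Finset ℕ, F.card = n → ∃ v : ℕ → ℕ, un v ∈ C 0 ∧
      ∃ c, ∀ x ∈ F, v x = c := by
    intro n
    induction n using Nat.strong_induction_on with
    | _ n ih =>
      intro F hF
      by_cases hF1 : F.card ≤ 1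
      · refine ⟨id, S.projC 0 0, ?_⟩
        rcases Finset.eq_empty_or_nonempty F with rfl | ⟨x, hx⟩
        · exact ⟨0, by simp⟩
        · refine ⟨x, fun y hy => ?_⟩
          exact Finset.card_le_one.1 hF1 y hy x hx
      · obtain ⟨x, hx, y, hy, hxy⟩ := Finset.one_lt_card.1 (not_le.1 hF1)
        -- permutation moving `x, y` to `a, b`
        let e : ℕ → ℕ := fun z => if z = x then a else b
        obtain ⟨g, hg⟩ := exists_perm_of_injOn {x, y} e (by
          intro z hz w hw hzw
          simp only [Finset.coe_insert, Finset.coe_singleton, Set.mem_insert_iff,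
            Set.mem_singleton_iff] at hz hw
          rcases hz with rfl | rfl <;> rcases hw with rfl | rfl
          · rfl
          · simp only [e, if_true, if_neg (Ne.symm hxy)] at hzw
            exact absurd hzw hne
          · simp only [e, if_true, if_neg (Ne.symm hxy)] at hzw
            exact absurd hzw.symm hne
          · rfl)
        have hgx : g x = a := by rw [hg x (by simp)]; simp [e]
        have hgy : g y = b := by rw [hg y (by simp)]; simp [e, Ne.symm hxy]
        have hlt : (F.image (u ∘ g)).card < n := by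
          rw [← hF]
          refine lt_of_le_of_ne Finset.card_image_le ?_
          intro hc
          have hio := Finset.card_image_iff.1 hc
          exact hxy (hio hx hy (by rw [Function.comp_apply, Function.comp_apply, hgx, hgy, hab]))
        obtain ⟨v, hv, c, hc⟩ := ih _ hlt _ rfl
        refine ⟨v ∘ (u ∘ g), S.un_comp hv (S.un_comp hu (S.permC g)), c, fun z hz => ?_⟩
        exact hc _ (Finset.mem_image_of_mem _ hz)
  intro c0
  apply S.closedC
  intro B
  obtain ⟨v, hv, c, hc⟩ := hcol _ (B.image fun b => b 0) rfl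
  refine ⟨un (swap c c0 ∘ v), S.un_comp (S.permC _) hv, fun b hb => ?_⟩
  show swap c c0 (v (b 0)) = c0
  rw [hc _ (Finset.mem_image_of_mem _ hb), swap_apply_left]

/-- the graph of the isomorphism is closed -/
theorem closed_graph {n : ℕ} {w h : Opn n} (hw : w ∈ C n) (hh : h ∈ C n)
    (hlim : ∀ B Y : Finset (Fin (n + 1) → ℕ), ∃ v ∈ C n, (∀ b ∈ B, v b = w b) ∧
      ∀ y ∈ Y, X n v y = X n h y) : w = h := by
  classical
  rcases S.dichotomy with hinj | hconst
  · funext b
    -- permutations with `g i 0 = b i`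
    let g : Fin (n + 1) → Perm ℕ := fun i => swap 0 (b i)
    have hg0 : (fun i => g i 0) = b := by
      funext i
      exact swap_apply_left _ _
    have hgC : ∀ i, un (g i) ∈ C 0 := fun i => S.permC _
    have hkey : R X (fun y => w (fun i => g i y)) = R X (fun y => h (fun i => g i y)) := by
      funext p
      obtain ⟨v, hv, hvB, hvY⟩ := hlim ((S.A p).image fun a => fun i => g i a)
        {fun i => R X (g i) p}
      have i1 := hinj _ (S.diag_mem hgC hw)
      have i2 := hinj _ (S.diag_mem hgC hv)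
      obtain ⟨g1, hg1⟩ := exists_perm_of_injOn (S.A p) _ i1.injOn
      have e1 : R X (fun y => w (fun i => g i y)) p = R X g1 p := S.R_of_inj i1 p g1 hg1
      have e2 : R X (fun y => v (fun i => g i y)) p = R X g1 p := by
        apply S.R_of_inj i2 p g1
        intro a ha
        rw [hg1 a ha, hvB _ (Finset.mem_image_of_mem _ ha)]
      rw [e1, ← e2, S.R_diag hgC hv, S.R_diag hgC hh]
      exact hvY _ (Finset.mem_singleton_self _)
    have h2 := S.R_inj (S.diag_mem hgC hw) (S.diag_mem hgC hh) hkey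
    have h3 := congrFun h2 0
    simp only [hg0] at h3
    exact h3
  · -- images of constants are constants
    have hα : ∀ a, ∃ c, R X (fun _ => a) = fun _ => c := by
      intro a
      have e1 := S.X_coord (n := 1) (hconst a) 0
      have e2 := S.X_coord (n := 1) (hconst a) 1
      refine ⟨R X (fun _ => a) 0, ?_⟩
      funext y
      have h1 := e1 (fun i => if i = 0 then y else 0)
      have h2 := e2 (fun i => if i = 0 then y else 0)
      simp only [if_true, one_ne_zero, if_false] at h1 h2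
      rw [← h1, ← h2]
    choose α hα using hα
    have hαinj : Function.Injective α := by
      intro a b hab
      have : R X (fun _ => a) = R X (fun _ => b) := by rw [hα, hα, hab]
      exact congrFun (S.R_inj (hconst a) (hconst b) this) 0
    have hXα : ∀ f ∈ C n, ∀ b : Fin (n + 1) → ℕ, X n f (fun i => α (b i)) = α (f b) := by
      intro f hf b
      have h1 := S.R_diag (u := fun i _ => b i) (fun i => hconst (b i)) hf 0
      have h2 : (fun i => R X ((fun i _ => b i : Fin (n + 1) → ℕ → ℕ) i) 0) =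
          fun i => α (b i) := by
        funext i
        exact congrFun (hα (b i)) 0
      rw [h2] at h1
      rw [← h1]
      exact congrFun (hα (f b)) 0
    funext b
    obtain ⟨v, hv, hvB, hvY⟩ := hlim {b} {fun i => α (b i)}
    have h1 := hvY _ (Finset.mem_singleton_self _)
    rw [hXα v hv, hXα h hh, hvB b (Finset.mem_singleton_self _)] at h1
    exact hαinj h1

/-- the values at a tuple of the images of the members of the clone lie in finitely many orbits -/
theorem finite_orbits (n : ℕ) (p : Fin (n + 1) → ℕ) : ∃ (K : Type) (_ : Finite K)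
    (κ : Opn n → K), ∀ f ∈ C n, ∀ f' ∈ C n, κ f = κ f' → ∃ g : Perm ℕ,
      X n f' p = R X g (X n f p) := by
  classical
  obtain ⟨M, hM⟩ : ∃ M : ℕ, ∀ i, ∀ a ∈ S.A (p i), a < M := by
    refine ⟨(Finset.univ.biUnion fun i => S.A (p i)).sup id + 1, fun i a ha => ?_⟩
    exact Nat.lt_succ_of_le (Finset.le_sup (f := id)
      (Finset.mem_biUnion.2 ⟨i, Finset.mem_univ _, ha⟩))
  have hcan := fun f : Opn n => exists_canonical M f
  choose e he1 he2 using hcan
  refine ⟨_, inferInstance, fun f => col M (fun x => f (fun i => e f (x i))), ?_⟩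
  intro f hf f' hf' hκ
  have hker := canonical_kernel M (he2 f) (he2 f') hκ
  have heinj : ∀ f, Function.Injective (e f) := fun f => (he1 f).1.injective
  obtain ⟨g, hg⟩ := exists_perm_of_kernel
    (fun x : Fin (n + 1) → ℕ => dbl (f (fun i => e f (x i))))
    (fun x : Fin (n + 1) → ℕ => dbl (f' (fun i => e f' (x i))))
    (fun x y => ⟨fun h => by rw [(hker x y).1 (dbl_inj h)],
      fun h => by rw [(hker x y).2 (dbl_inj h)]⟩)
    (dbl_range _) (dbl_range _)
  have hdbl : un dbl ∈ C 0 := S.inj_mem dbl_inj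
  have hval : ∀ f ∈ C n, X n (fun x => dbl (f (fun i => e f (x i)))) p = R X dbl (X n f p) := by
    intro f hf
    rw [S.X_post hdbl (S.pre_mem (S.inj_mem (heinj f)) hf), S.X_pre (S.inj_mem (heinj f)) hf]
    congr 2
    funext i
    rw [S.R_of_inj (heinj f) (p i) 1 (fun a ha => ((he1 f).2 a (hM i a ha)).symm), S.R_one]
  have hmem : (fun x => dbl (f (fun i => e f (x i))) : Opn n) ∈ C n :=
    S.post_mem hdbl (S.pre_mem (S.inj_mem (heinj f)) hf)
  have h1 : X n (fun x => dbl (f' (fun i => e f' (x i)))) p =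
      R X g (X n (fun x => dbl (f (fun i => e f (x i)))) p) := by
    rw [← S.X_post (S.permC g) hmem]
    congr 1
    funext x
    exact (hg x).symm
  rw [hval f hf, hval f' hf'] at h1
  obtain ⟨g1, hg1⟩ := exists_perm_of_injOn (S.A (X n f p)) dbl dbl_inj.injOn
  obtain ⟨g2, hg2⟩ := exists_perm_of_injOn (S.A (X n f' p)) dbl dbl_inj.injOn
  rw [S.R_of_inj dbl_inj _ g1 hg1, S.R_of_inj dbl_inj _ g2 hg2] at h1
  refine ⟨g2⁻¹ * (g * g1), ?_⟩
  rw [S.R_mul, S.R_mul, ← h1, S.R_inv_apply]

end Setup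

end Pool.Agent.V11234.AH
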