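import Pool.Agent.V11234.AH.Core

/-! Continuity of clone isomorphisms and of their inverses. -/

namespace Pool.Agent.V11234.AH

open Equiv Filter

namespace Setup

variable {C D : ∀ n : ℕ, Set (Opn n)} {X : ∀ n, Opn n → Opn n} (S : Setup C D X)

include S

omit S in
theorem exists_seq' {Y : Type} [Countable Y] {Z : Type} (Q : Y → Z → Prop)
    (h : ∀ B : Finset Y, ∃ z, ∀ y ∈ B, Q y z) : ∃ f : ℕ → Z, ∀ y, ∃ k0, ∀ k ≥ k0, Q y (f k) := by
  classical
  obtain ⟨ι, hι⟩ : ∃ ι : Y → ℕ, Function.Injective ι := exists_injective_nat _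
  have hfin : ∀ k : ℕ, {y | ι y ≤ k}.Finite := by
    intro k
    exact Set.Finite.of_injOn (f := ι) (t := Set.Iic k) (fun y hy => hy) hι.injOn
      (Set.finite_Iic k)
  choose f hf using fun k => h (hfin k).toFinset
  refine ⟨f, fun y => ⟨ι y, fun k hk => ?_⟩⟩
  apply hf
  rw [Set.Finite.mem_toFinset]
  exact hk

omit S in
theorem ev_of_ge {P : ℕ → Prop} {k0 : ℕ} (h : ∀ k ≥ k0, P k) :
    ∀ᶠ k in ((hyperfilter ℕ : Ultrafilter ℕ) : Filter ℕ), P k := by
  have h1 : ∀ᶠ k in (cofinite : Filter ℕ), P k := by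
    rw [Nat.cofinite_eq_atTop]
    exact eventually_atTop.2 ⟨k0, h⟩
  exact hyperfilter_le_cofinite h1

/-- **Continuity of the inverse.** -/
theorem inv_continuous {n : ℕ} {f : Opn n} (hf : f ∈ C n) (b : Fin (n + 1) → ℕ) :
    ∃ Y : Finset (Fin (n + 1) → ℕ), ∀ f' ∈ C n, (∀ y ∈ Y, X n f' y = X n f y) → f' b = f b := by
  classical
  by_contra hc
  push Not at hc
  obtain ⟨s, hs⟩ := exists_seq' (Y := Fin (n + 1) → ℕ) (Z := {f' // f' ∈ C n ∧ f' b ≠ f b})
    (fun y f' => X n f'.1 y = X n f y) (fun B => by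
      obtain ⟨f', h1, h2, h3⟩ := hc B
      exact ⟨⟨f', h1, h3⟩, h2⟩)
  obtain ⟨τ, hτ⟩ := exists_lim (J := ℕ ⊕ (Fin (n + 1) → ℕ)) (hyperfilter ℕ)
    (fun j k => Sum.elim id (fun x => (s k).1 x) j)
  -- the limit injection
  have heinj : Function.Injective fun a : ℕ => τ (Sum.inl a) := by
    intro a a' h
    obtain ⟨k, g, hg⟩ := (hτ {Sum.inl a, Sum.inl a'}).exists
    have h1 : g a = τ (Sum.inl a) := hg (Sum.inl a) (by simp)
    have h2 : g a' = τ (Sum.inl a') := hg (Sum.inl a') (by simp)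
    apply g.injective
    rw [h1, h2]
    exact h
  set e : ℕ → ℕ := fun a => τ (Sum.inl a) with he
  set w : Opn n := fun x => τ (Sum.inr x) with hw
  have heC : un e ∈ C 0 := S.inj_mem heinj
  have hwC : w ∈ C n := by
    apply S.closedC
    intro B
    obtain ⟨k, g, hg⟩ := (hτ (B.image Sum.inr)).exists
    refine ⟨fun x => g ((s k).1 x), S.post_mem (S.permC g) (s k).2.1, fun x hx => ?_⟩
    exact hg (Sum.inr x) (Finset.mem_image_of_mem _ hx)
  have hfC : (fun x => e (f x) : Opn n) ∈ C n := S.post_mem heC hf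
  have hwe : w = fun x => e (f x) := by
    apply S.closed_graph hwC hfC
    intro B Y
    have h1 := hτ (B.image Sum.inr ∪ (Y.biUnion fun y => S.A (X n f y)).image Sum.inl)
    have h2 : ∀ᶠ k in ((hyperfilter ℕ : Ultrafilter ℕ) : Filter ℕ), ∀ y ∈ Y,
        X n (s k).1 y = X n f y := by
      rw [eventually_all_finset]
      intro y _
      obtain ⟨k0, hk0⟩ := hs y
      exact ev_of_ge hk0
    obtain ⟨k, ⟨g, hg⟩, hk⟩ := (h1.and h2).exists
    refine ⟨fun x => g ((s k).1 x), S.post_mem (S.permC g) (s k).2.1, fun x hx => ?_,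
      fun y hy => ?_⟩
    · exact hg (Sum.inr x) (Finset.mem_union_left _ (Finset.mem_image_of_mem _ hx))
    · rw [S.X_post (S.permC g) (s k).2.1, S.X_post heC hf, hk y hy]
      refine (S.R_of_inj heinj _ g ?_).symm
      intro a ha
      exact hg (Sum.inl a) (Finset.mem_union_right _ (Finset.mem_image_of_mem _
        (Finset.mem_biUnion.2 ⟨y, hy, ha⟩)))
  obtain ⟨k, g, hg⟩ := (hτ {Sum.inl (f b), Sum.inr b}).exists
  have h1 : g (f b) = e (f b) := hg (Sum.inl (f b)) (by simp)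
  have h2 : g ((s k).1 b) = w b := hg (Sum.inr b) (by simp)
  have h3 : w b = e (f b) := congrFun hwe b
  exact (s k).2.2 (g.injective (by rw [h1, h2, h3]))

/-- **Continuity.** -/
theorem continuous {n : ℕ} {f : Opn n} (hf : f ∈ C n) (p : Fin (n + 1) → ℕ) :
    ∃ B : Finset (Fin (n + 1) → ℕ), ∀ f' ∈ C n, (∀ b ∈ B, f' b = f b) → X n f' p = X n f p := by
  classical
  by_contra hc
  push Not at hc
  obtain ⟨s, hs⟩ := exists_seq' (Y := Fin (n + 1) → ℕ)
    (Z := {f' // f' ∈ C n ∧ X n f' p ≠ X n f p})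
    (fun b f' => f'.1 b = f b) (fun B => by
      obtain ⟨f', h1, h2, h3⟩ := hc B
      exact ⟨⟨f', h1, h3⟩, h2⟩)
  -- representatives of the orbits
  have hrep : ∀ y : Fin (n + 1) → ℕ, ∃ z : ℕ,
      ∀ᶠ k in ((hyperfilter ℕ : Ultrafilter ℕ) : Filter ℕ), ∃ g : Perm ℕ,
        X n (s k).1 y = R X g z := by
    intro y
    obtain ⟨K, hK, κ, hκ⟩ := S.finite_orbits n y
    obtain ⟨c, hc⟩ := Ultrafilter.eq_pure_of_finite
      ((hyperfilter ℕ).map (fun k => κ (s k).1))
    have h1 : ∀ᶠ k in ((hyperfilter ℕ : Ultrafilter ℕ) : Filter ℕ), κ (s k).1 = c := by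
      have : ({c} : Set K) ∈ (hyperfilter ℕ).map (fun k => κ (s k).1) := by
        rw [hc]; exact Ultrafilter.mem_pure.2 rfl
      exact this
    obtain ⟨k0, hk0⟩ := h1.exists
    refine ⟨X n (s k0).1 y, h1.mono fun k hk => ?_⟩
    exact hκ _ (s k0).2.1 _ (s k).2.1 (hk0.trans hk.symm)
  choose z hz using hrep
  have hγ : ∀ y k, ∃ γ : Perm ℕ, (∃ g : Perm ℕ, X n (s k).1 y = R X g (z y)) →
      X n (s k).1 y = R X γ (z y) := by
    intro y k
    by_cases h : ∃ g : Perm ℕ, X n (s k).1 y = R X g (z y)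
    · obtain ⟨g, hg⟩ := h
      exact ⟨g, fun _ => hg⟩
    · exact ⟨1, fun h' => absurd h' h⟩
  choose γ hγ using hγ
  have hz' : ∀ y, ∀ᶠ k in ((hyperfilter ℕ : Ultrafilter ℕ) : Filter ℕ),
      X n (s k).1 y = R X (γ y k) (z y) := fun y => (hz y).mono fun k hk => hγ y k hk
  obtain ⟨τ, hτ⟩ := exists_lim (J := ℕ ⊕ ((Fin (n + 1) → ℕ) × ℕ)) (hyperfilter ℕ)
    (fun j k => Sum.elim id (fun q => γ q.1 k q.2) j)
  have heinj : Function.Injective fun a : ℕ => τ (Sum.inl a) := by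
    intro a a' h
    obtain ⟨k, g, hg⟩ := (hτ {Sum.inl a, Sum.inl a'}).exists
    have h1 : g a = τ (Sum.inl a) := hg (Sum.inl a) (by simp)
    have h2 : g a' = τ (Sum.inl a') := hg (Sum.inl a') (by simp)
    apply g.injective
    rw [h1, h2]
    exact h
  set e : ℕ → ℕ := fun a => τ (Sum.inl a) with he
  have heC : un e ∈ C 0 := S.inj_mem heinj
  -- the limit of the images
  have hσ : ∀ y, ∃ g' : Perm ℕ, ∀ a ∈ S.A (z y), g' a = τ (Sum.inr (y, a)) := by
    intro y
    obtain ⟨k, g, hg⟩ := (hτ ((S.A (z y)).image fun a => Sum.inr (y, a))).exists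
    refine ⟨g * γ y k, fun a ha => ?_⟩
    exact hg _ (Finset.mem_image_of_mem _ ha)
  choose σ hσ using hσ
  set W : Opn n := fun y => R X (σ y) (z y) with hW
  have hWk : ∀ y k, ∀ g : Perm ℕ, X n (s k).1 y = R X (γ y k) (z y) →
      (∀ a ∈ S.A (z y), g (γ y k a) = τ (Sum.inr (y, a))) → R X g (X n (s k).1 y) = W y := by
    intro y k g h1 h2
    rw [h1, ← S.R_mul]
    apply S.R_eq_of_A
    intro a ha
    rw [Perm.mul_apply, h2 a ha, hσ y a ha]
  have hWD : W ∈ D n := by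
    apply S.closedD
    intro Y
    have h1 := hτ (Y.biUnion fun y => (S.A (z y)).image fun a => Sum.inr (y, a))
    have h2 : ∀ᶠ k in ((hyperfilter ℕ : Ultrafilter ℕ) : Filter ℕ), ∀ y ∈ Y,
        X n (s k).1 y = R X (γ y k) (z y) := by
      rw [eventually_all_finset]
      intro y _
      exact hz' y
    obtain ⟨k, ⟨g, hg⟩, hk⟩ := (h1.and h2).exists
    refine ⟨X n (fun x => g ((s k).1 x)), S.maps n _ (S.post_mem (S.permC g) (s k).2.1),
      fun y hy => ?_⟩
    rw [S.X_post (S.permC g) (s k).2.1]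
    apply hWk y k g (hk y hy)
    intro a ha
    exact hg _ (Finset.mem_biUnion.2 ⟨y, hy, Finset.mem_image_of_mem _ ha⟩)
  obtain ⟨h, hhC, hhW⟩ := S.surj n W hWD
  have hfC : (fun x => e (f x) : Opn n) ∈ C n := S.post_mem heC hf
  have hhe : (fun x => e (f x)) = h := by
    apply S.closed_graph hfC hhC
    intro B Y
    have h1 := hτ ((B.image fun b => Sum.inl (f b)) ∪
      (Y.biUnion fun y => (S.A (z y)).image fun a => Sum.inr (y, a)))
    have h2 : ∀ᶠ k in ((hyperfilter ℕ : Ultrafilter ℕ) : Filter ℕ), ∀ y ∈ Y,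
        X n (s k).1 y = R X (γ y k) (z y) := by
      rw [eventually_all_finset]
      intro y _
      exact hz' y
    have h3 : ∀ᶠ k in ((hyperfilter ℕ : Ultrafilter ℕ) : Filter ℕ), ∀ b ∈ B,
        (s k).1 b = f b := by
      rw [eventually_all_finset]
      intro b _
      obtain ⟨k0, hk0⟩ := hs b
      exact ev_of_ge hk0
    obtain ⟨k, ⟨⟨g, hg⟩, hk⟩, hkB⟩ := ((h1.and h2).and h3).exists
    refine ⟨fun x => g ((s k).1 x), S.post_mem (S.permC g) (s k).2.1, fun b hb => ?_,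
      fun y hy => ?_⟩
    · show g ((s k).1 b) = e (f b)
      rw [hkB b hb]
      exact hg (Sum.inl (f b)) (Finset.mem_union_left _ (Finset.mem_image_of_mem _ hb))
    · rw [S.X_post (S.permC g) (s k).2.1, hhW]
      apply hWk y k g (hk y hy)
      intro a ha
      exact hg _ (Finset.mem_union_right _
        (Finset.mem_biUnion.2 ⟨y, hy, Finset.mem_image_of_mem _ ha⟩))
  -- conclusion at `p`
  have h1 := hτ (((S.A (X n f p)).image fun a => Sum.inl a) ∪
      ((S.A (z p)).image fun a => Sum.inr (p, a)))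
  obtain ⟨k, ⟨g, hg⟩, hk⟩ := (h1.and (hz' p)).exists
  have h2 : R X g (X n (s k).1 p) = W p := by
    apply hWk p k g hk
    intro a ha
    exact hg _ (Finset.mem_union_right _ (Finset.mem_image_of_mem _ ha))
  have h3 : R X e (X n f p) = R X g (X n f p) := by
    apply S.R_of_inj heinj
    intro a ha
    exact hg _ (Finset.mem_union_left _ (Finset.mem_image_of_mem _ ha))
  have h4 : W p = R X e (X n f p) := by
    rw [← hhW, ← hhe, S.X_post heC hf]
  exact (s k).2.2 (S.R_perm_inj g (by rw [h2, h4, h3]))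

end Setup

end Pool.Agent.V11234.AH
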