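import Mathlib

/-! Extension lemmas for permutations of `ℕ` and the small index property of the symmetric group of
a countable set, for subgroups of countable index (Dixon, Neumann and Thomas). -/

namespace Pool.Agent.V11234.AH

open Equiv

/-- `g` is supported on `X` -/
def Supp (g : Perm ℕ) (X : Set ℕ) : Prop := ∀ x, x ∉ X → g x = x

theorem Supp.mono {g : Perm ℕ} {X Y : Set ℕ} (h : Supp g X) (hXY : X ⊆ Y) : Supp g Y :=
  fun x hx => h x (fun h' => hx (hXY h'))

theorem Supp.mem {g : Perm ℕ} {X : Set ℕ} (h : Supp g X) {x : ℕ} (hx : x ∈ X) : g x ∈ X := by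
  by_contra hc
  have := h _ hc
  have h2 := g.injective this
  rw [h2] at hc
  exact hc hx

theorem Supp.one (X : Set ℕ) : Supp 1 X := fun _ _ => rfl

theorem Supp.inv {g : Perm ℕ} {X : Set ℕ} (h : Supp g X) : Supp g⁻¹ X := by
  intro x hx
  rw [Perm.inv_eq_iff_eq]
  exact (h x hx).symm

theorem Supp.mul {g h : Perm ℕ} {X : Set ℕ} (hg : Supp g X) (hh : Supp h X) : Supp (g * h) X := by
  intro x hx
  rw [Perm.mul_apply, hh x hx, hg x hx]

theorem Supp.mem_iff {g : Perm ℕ} {X : Set ℕ} (h : Supp g X) {x : ℕ} : g x ∈ X ↔ x ∈ X := by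
  refine ⟨fun h' => ?_, h.mem⟩
  have := h.inv.mem h'
  rwa [show g⁻¹ (g x) = x from g.symm_apply_apply x] at this

/-- A partial injection inside `X` with infinite co-domain and co-image extends to a permutation
of `ℕ` supported on `X`. -/
theorem exists_extend {X B : Set ℕ} {φ : ℕ → ℕ} (hB : B ⊆ X) (hφ : Set.InjOn φ B)
    (hm : Set.MapsTo φ B X) (h1 : (X \ B).Infinite) (h2 : (X \ φ '' B).Infinite) :
    ∃ g : Perm ℕ, Supp g X ∧ ∀ x ∈ B, g x = φ x := by
  classical
  have := h1.to_subtype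
  have := h2.to_subtype
  obtain ⟨ψ⟩ : Nonempty ((X \ B : Set ℕ) ≃ (X \ φ '' B : Set ℕ)) := nonempty_equiv_of_countable
  let F : ℕ → ℕ := fun x => if h : x ∈ X \ B then (ψ ⟨x, h⟩ : ℕ) else if x ∈ B then φ x else x
  have hF1 : ∀ x (h : x ∈ X \ B), F x = ψ ⟨x, h⟩ := fun x h => by simp only [F, dif_pos h]
  have hF2 : ∀ x ∈ B, F x = φ x := fun x h => by
    have : x ∉ X \ B := fun h' => h'.2 h
    simp only [F, dif_neg this, if_pos h]
  have hF3 : ∀ x, x ∉ X → F x = x := fun x h => by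
    have h1 : x ∉ X \ B := fun h' => h h'.1
    have h2 : x ∉ B := fun h' => h (hB h')
    simp only [F, dif_neg h1, if_neg h2]
  have hcase : ∀ x, x ∈ X \ B ∨ x ∈ B ∨ x ∉ X := by
    intro x
    by_cases hx : x ∈ X
    · by_cases hb : x ∈ B
      · exact Or.inr (Or.inl hb)
      · exact Or.inl ⟨hx, hb⟩
    · exact Or.inr (Or.inr hx)
  have hinj : Function.Injective F := by
    intro x y hxy
    rcases hcase x with hx | hx | hx <;> rcases hcase y with hy | hy | hy
    · rw [hF1 x hx, hF1 y hy] at hxy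
      have := ψ.injective (Subtype.ext hxy)
      exact congrArg Subtype.val this
    · rw [hF1 x hx, hF2 y hy] at hxy
      exact absurd ⟨y, hy, hxy.symm⟩ (ψ ⟨x, hx⟩).2.2
    · rw [hF1 x hx, hF3 y hy] at hxy
      exact absurd (hxy ▸ (ψ ⟨x, hx⟩).2.1) hy
    · rw [hF2 x hx, hF1 y hy] at hxy
      exact absurd ⟨x, hx, hxy⟩ (ψ ⟨y, hy⟩).2.2
    · rw [hF2 x hx, hF2 y hy] at hxy
      exact hφ hx hy hxy
    · rw [hF2 x hx, hF3 y hy] at hxy
      exact absurd (hxy ▸ hm hx) hy
    · rw [hF3 x hx, hF1 y hy] at hxy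
      exact absurd (hxy ▸ (ψ ⟨y, hy⟩).2.1) hx
    · rw [hF3 x hx, hF2 y hy] at hxy
      exact absurd (hxy ▸ hm hy) hx
    · rw [hF3 x hx, hF3 y hy] at hxy
      exact hxy
  have hsurj : Function.Surjective F := by
    intro y
    by_cases hy : y ∈ X
    · by_cases hy' : y ∈ φ '' B
      · obtain ⟨x, hx, rfl⟩ := hy'
        exact ⟨x, hF2 x hx⟩
      · refine ⟨ψ.symm ⟨y, hy, hy'⟩, ?_⟩
        rw [hF1 _ (ψ.symm ⟨y, hy, hy'⟩).2]
        simp
    · exact ⟨y, hF3 y hy⟩
  refine ⟨Equiv.ofBijective F ⟨hinj, hsurj⟩, fun x hx => hF3 x hx, fun x hx => hF2 x hx⟩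

/-- a map injective on a finite set agrees with a permutation on it -/
theorem exists_perm_of_injOn (A : Finset ℕ) (e : ℕ → ℕ) (h : Set.InjOn e A) :
    ∃ g : Perm ℕ, ∀ a ∈ A, g a = e a := by
  classical
  induction A using Finset.induction_on with
  | empty => exact ⟨1, by simp⟩
  | insert a A ha ih =>
    obtain ⟨g, hg⟩ := ih (h.mono (by simp))
    refine ⟨swap (g a) (e a) * g, ?_⟩
    intro b hb
    rw [Finset.mem_insert] at hb
    rw [Perm.mul_apply]
    rcases hb with rfl | hb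
    · simp
    · have hne : b ≠ a := fun h' => ha (h' ▸ hb)
      have h1 : g b ≠ g a := fun h' => hne (g.injective h')
      have h2 : g b ≠ e a := by
        rw [hg b hb]
        intro h'
        exact hne (h (by simp [hb]) (by simp) h')
      rw [swap_apply_of_ne_of_ne h1 h2, hg b hb]

/-- there is a partition of an infinite set into infinitely many infinite sets -/
theorem exists_fibers (X : Set ℕ) (hX : X.Infinite) :
    ∃ π : ℕ → ℕ, ∀ i, {x | x ∈ X ∧ π x = i}.Infinite := by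
  classical
  have := hX.to_subtype
  obtain ⟨ε⟩ : Nonempty (X ≃ ℕ × ℕ) := nonempty_equiv_of_countable
  refine ⟨fun x => if h : x ∈ X then (ε ⟨x, h⟩).1 else 0, fun i => ?_⟩
  have : Set.range (fun j : ℕ => ((ε.symm (i, j) : X) : ℕ)) ⊆
      {x | x ∈ X ∧ (if h : x ∈ X then (ε ⟨x, h⟩).1 else 0) = i} := by
    rintro _ ⟨j, rfl⟩
    refine ⟨(ε.symm (i, j)).2, ?_⟩
    rw [dif_pos (ε.symm (i, j)).2]
    simp
  refine (Set.infinite_range_of_injective ?_).mono this
  intro j j' h
  have := ε.symm.injective (Subtype.ext h)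
  simpa using this

section SIP

variable (H : Subgroup (Perm ℕ)) (Φ : Perm ℕ → ℕ) (hΦ : ∀ g h : Perm ℕ, Φ g = Φ h → g⁻¹ * h ∈ H)

include hΦ

/-- diagonal argument: `H` acts fully on some member of a family of disjoint sets -/
theorem full_of_countable (X : Set ℕ) (π : ℕ → ℕ) :
    ∃ i, ∀ g : Perm ℕ, Supp g {x | x ∈ X ∧ π x = i} →
      ∃ h ∈ H, Supp h X ∧ ∀ x, x ∈ X → π x = i → h x = g x := by
  classical
  by_cases hcase : ∃ i, ∀ g : Perm ℕ, Supp g {x | x ∈ X ∧ π x = i} →
      ∃ t : Perm ℕ, Φ t = i ∧ Supp t X ∧ ∀ x, x ∈ X → π x = i → t x = g x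
  · obtain ⟨i, hi⟩ := hcase
    refine ⟨i, fun g hg => ?_⟩
    obtain ⟨t, ht, ht1, ht2⟩ := hi g hg
    obtain ⟨s, hs, hs1, hs2⟩ := hi 1 (Supp.one _)
    refine ⟨s⁻¹ * t, hΦ _ _ (hs.trans ht.symm), hs1.inv.mul ht1, fun x hx hx' => ?_⟩
    rw [Perm.mul_apply, ht2 x hx hx', Perm.inv_eq_iff_eq]
    have := hg.mem (x := x) ⟨hx, hx'⟩
    rw [hs2 _ this.1 this.2]
    rfl
  · exfalso
    push Not at hcase
    choose g hg hgn using hcase
    have hpi : ∀ i x, π x = i → π (g i x) = i := by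
      intro i x hx
      by_cases hX : x ∈ X
      · exact ((hg i).mem (x := x) ⟨hX, hx⟩).2
      · rw [(hg i) x (fun h => hX h.1)]; exact hx
    have hpi' : ∀ i x, π x = i → π ((g i)⁻¹ x) = i := by
      intro i x hx
      by_cases hX : x ∈ X
      · exact ((hg i).inv.mem (x := x) ⟨hX, hx⟩).2
      · rw [(hg i).inv x (fun h => hX h.1)]; exact hx
    let γ : Perm ℕ :=
      { toFun := fun x => g (π x) x
        invFun := fun x => (g (π x))⁻¹ x
        left_inv := by
          intro x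
          show (g (π (g (π x) x)))⁻¹ (g (π x) x) = x
          rw [hpi _ x rfl]
          simp
        right_inv := by
          intro x
          show (g (π ((g (π x))⁻¹ x))) ((g (π x))⁻¹ x) = x
          rw [hpi' _ x rfl]
          simp }
    have hγ : ∀ x, γ x = g (π x) x := fun x => rfl
    have h1 : Supp γ X := by
      intro x hx
      rw [hγ]
      exact hg _ x (fun h => hx h.1)
    obtain ⟨x, hx, hx', hne⟩ := hgn (Φ γ) γ rfl h1
    apply hne
    rw [hγ, hx']

end SIP

/-- every permutation supported on one of the copies is a commutator -/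
theorem commutator_trick (g : Perm ℕ) : ∃ a b : Perm (ℤ × ℕ),
    (∀ x, (a * b * a⁻¹ * b⁻¹) (0, x) = (0, g x)) ∧
    ∀ i x, i ≠ 0 → (a * b * a⁻¹ * b⁻¹) (i, x) = (i, x) := by
  classical
  let a : Perm (ℤ × ℕ) :=
    { toFun := fun p => if 0 ≤ p.1 then (p.1, g p.2) else p
      invFun := fun p => if 0 ≤ p.1 then (p.1, g.symm p.2) else p
      left_inv := by
        rintro ⟨i, x⟩
        by_cases h : 0 ≤ i <;> simp [h]
      right_inv := by
        rintro ⟨i, x⟩
        by_cases h : 0 ≤ i <;> simp [h] }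
  let b : Perm (ℤ × ℕ) :=
    { toFun := fun p => (p.1 + 1, p.2)
      invFun := fun p => (p.1 - 1, p.2)
      left_inv := by rintro ⟨i, x⟩; simp
      right_inv := by rintro ⟨i, x⟩; simp }
  have ha : ∀ p, a p = if 0 ≤ p.1 then (p.1, g p.2) else p := fun p => rfl
  have ha' : ∀ p, a⁻¹ p = if 0 ≤ p.1 then (p.1, g.symm p.2) else p := fun p => rfl
  have hb : ∀ p, b p = (p.1 + 1, p.2) := fun p => rfl
  have hb' : ∀ p, b⁻¹ p = (p.1 - 1, p.2) := fun p => rfl
  have hall : ∀ i x, (a * b * a⁻¹ * b⁻¹) (i, x) = a (b (a⁻¹ (b⁻¹ (i, x)))) := fun i x => rfl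
  refine ⟨a, b, fun x => ?_, fun i x hi => ?_⟩
  · rw [hall, hb', ha']
    rw [if_neg (by simp), hb, ha]
    simp
  · rw [hall, hb', ha']
    rcases lt_or_gt_of_ne hi with h | h
    · rw [if_neg (by simp; omega), hb, ha]
      rw [if_neg (by simp; omega)]
      simp
    · rw [if_pos (by simp; omega), hb, ha]
      rw [if_pos (by simp; omega)]
      simp


theorem pinv_apply (g : Perm ℕ) (x : ℕ) : g⁻¹ (g x) = x := g.symm_apply_apply x

theorem papply_inv (g : Perm ℕ) (x : ℕ) : g (g⁻¹ x) = x := g.apply_symm_apply x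

/-- the subgroup `H` contains the full symmetric group on some infinite coinfinite set -/
theorem exists_sym_le (H : Subgroup (Perm ℕ)) (Φ : Perm ℕ → ℕ)
    (hΦ : ∀ g h : Perm ℕ, Φ g = Φ h → g⁻¹ * h ∈ H) :
    ∃ S : Set ℕ, S.Infinite ∧ Sᶜ.Infinite ∧ ∀ g : Perm ℕ, Supp g S → g ∈ H := by
  classical
  obtain ⟨π, hπ⟩ := exists_fibers Set.univ Set.infinite_univ
  obtain ⟨i, hi⟩ := full_of_countable H Φ hΦ Set.univ π
  set X : Set ℕ := {x | x ∈ Set.univ ∧ π x = i} with hX
  have hXinf : X.Infinite := hπ i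
  obtain ⟨ρ, hρ⟩ := exists_fibers X hXinf
  obtain ⟨j, hj⟩ := full_of_countable H Φ hΦ X ρ
  set Y : Set ℕ := {x | x ∈ X ∧ ρ x = j} with hY
  have hYinf : Y.Infinite := hρ j
  have hYX : Y ⊆ X := fun x hx => hx.1
  have := hYinf.to_subtype
  obtain ⟨θ⟩ : Nonempty ((ℤ × ℕ) ≃ Y) := nonempty_equiv_of_countable
  refine ⟨{x | ∃ k : ℕ, x = θ (0, k)}, ?_, ?_, ?_⟩
  · have : Set.range (fun k : ℕ => ((θ (0, k) : Y) : ℕ)) ⊆ {x | ∃ k : ℕ, x = θ (0, k)} := by
      rintro _ ⟨k, rfl⟩
      exact ⟨k, rfl⟩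
    refine (Set.infinite_range_of_injective ?_).mono this
    intro k k' h
    have := θ.injective (Subtype.ext h)
    simpa using this
  · have : Set.range (fun k : ℕ => ((θ (1, k) : Y) : ℕ)) ⊆ {x | ∃ k : ℕ, x = θ (0, k)}ᶜ := by
      rintro _ ⟨k, rfl⟩ ⟨k', hk⟩
      have := θ.injective (Subtype.ext hk)
      simp at this
    refine (Set.infinite_range_of_injective ?_).mono this
    intro k k' h
    have := θ.injective (Subtype.ext h)
    simpa using this
  · intro g hg
    -- transport `g`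
    have hg0 : ∀ k : ℕ, ∃ k' : ℕ, g (θ (0, k)) = θ (0, k') := by
      intro k
      exact hg.mem (x := θ (0, k)) ⟨k, rfl⟩
    have hg0' : ∀ k : ℕ, ∃ k' : ℕ, g⁻¹ (θ (0, k)) = θ (0, k') := by
      intro k
      exact hg.inv.mem (x := θ (0, k)) ⟨k, rfl⟩
    choose u hu using hg0
    choose v hv using hg0'
    have huv : ∀ k, u (v k) = k := by
      intro k
      have h1 : (θ (0, u (v k)) : ℕ) = θ (0, k) := by
        rw [← hu, ← hv, papply_inv]
      have := θ.injective (Subtype.ext h1)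
      simpa using this
    have hvu : ∀ k, v (u k) = k := by
      intro k
      have h1 : (θ (0, v (u k)) : ℕ) = θ (0, k) := by
        rw [← hv, ← hu, pinv_apply]
      have := θ.injective (Subtype.ext h1)
      simpa using this
    let g' : Perm ℕ := ⟨u, v, hvu, huv⟩
    obtain ⟨a, b, hab1, hab2⟩ := commutator_trick g'
    -- extend `a` and `b` to permutations of `ℕ` supported on `Y`
    let E : Perm (ℤ × ℕ) →* Perm ℕ := Equiv.Perm.extendDomainHom θ
    have hE : ∀ (c : Perm (ℤ × ℕ)) p, E c (θ p) = θ (c p) := by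
      intro c p
      exact Equiv.Perm.extendDomain_apply_image c θ p
    have hES : ∀ c : Perm (ℤ × ℕ), Supp (E c) Y := by
      intro c x hx
      exact Equiv.Perm.extendDomain_apply_not_subtype c θ hx
    have hgE : g = E (a * b * a⁻¹ * b⁻¹) := by
      ext x
      by_cases hx : x ∈ Y
      · obtain ⟨⟨i', k⟩, hp⟩ := θ.surjective ⟨x, hx⟩
        have hp' : (θ (i', k) : ℕ) = x := congrArg Subtype.val hp
        rw [← hp', hE]
        by_cases hi' : i' = 0
        · subst hi'
          rw [hab1, hu]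
          rfl
        · rw [hab2 _ _ hi']
          refine hg _ ?_
          rintro ⟨k', hk'⟩
          have := θ.injective (Subtype.ext hk')
          simp at this
          exact hi' this.1
      · rw [hES _ x hx]
        refine hg _ ?_
        rintro ⟨k', hk'⟩
        exact hx (hk' ▸ (θ (0, k')).2)
    obtain ⟨h, hhH, hhS, hh⟩ := hi (E a) ((hES a).mono hYX)
    obtain ⟨k, hkH, hkS, hk⟩ := hj (E b) (hES b)
    have hhX : ∀ x, x ∈ X → h x = E a x := fun x hx => hh x hx.1 hx.2
    have hkY : ∀ x, x ∈ Y → k x = E b x := fun x hx => hk x hx.1 hx.2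
    have key : g = h * k * h⁻¹ * k⁻¹ := by
      rw [hgE, map_mul, map_mul, map_mul, map_inv, map_inv]
      -- preservation
      have hhX1 : ∀ x, x ∈ X → h⁻¹ x = (E a)⁻¹ x := by
        intro x hx
        rw [Perm.inv_eq_iff_eq, hhX _ (((hES a).mono hYX).inv.mem hx), papply_inv]
      have hkY1 : ∀ x, x ∈ Y → k⁻¹ x = (E b)⁻¹ x := by
        intro x hx
        rw [Perm.inv_eq_iff_eq, hkY _ ((hES b).inv.mem hx), papply_inv]
      ext x
      simp only [Perm.mul_apply]
      by_cases hxY : x ∈ Y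
      · have m1 : (E b)⁻¹ x ∈ Y := (hES b).inv.mem hxY
        have m2 : (E a)⁻¹ ((E b)⁻¹ x) ∈ Y := (hES a).inv.mem m1
        have m3 : (E b) ((E a)⁻¹ ((E b)⁻¹ x)) ∈ Y := (hES b).mem m2
        rw [hkY1 x hxY, hhX1 _ (hYX m1), hkY _ m2, hhX _ (hYX m3)]
      · have e1 : (E b)⁻¹ x = x := (hES b).inv x hxY
        have e2 : (E a)⁻¹ x = x := (hES a).inv x hxY
        have e3 : (E b) x = x := (hES b) x hxY
        have e4 : (E a) x = x := (hES a) x hxY
        rw [e1, e2, e3, e4]
        by_cases hxX : x ∈ X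
        · have m1 : k⁻¹ x ∈ X := hkS.inv.mem hxX
          have m1' : k⁻¹ x ∉ Y := by
            intro hc
            have := (hES b).mem hc
            rw [← hkY _ hc, papply_inv] at this
            exact hxY this
          have m2 : h⁻¹ (k⁻¹ x) = k⁻¹ x := by
            rw [hhX1 _ m1]
            exact (hES a).inv _ m1'
          rw [m2, papply_inv, hhX _ hxX, e4]
        · have m1 : k⁻¹ x = x := hkS.inv x hxX
          have m2 : h⁻¹ x ∉ X := by
            intro hc
            have : E a (h⁻¹ x) ∈ X := ((hES a).mono hYX).mem hc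
            rw [← hhX _ hc, papply_inv] at this
            exact hxX this
          rw [m1, hkS _ m2, papply_inv]
    rw [key]
    exact H.mul_mem (H.mul_mem (H.mul_mem hhH hkH) (H.inv_mem hhH)) (H.inv_mem hkH)

/-- an injection of `ℕ` into an infinite set `N` with `N \ range` infinite -/
theorem exists_coinf_inj {N : Set ℕ} (hN : N.Infinite) :
    ∃ φ : ℕ → ℕ, Function.Injective φ ∧ (∀ x, φ x ∈ N) ∧ (N \ Set.range φ).Infinite := by
  have := hN.to_subtype
  obtain ⟨θ⟩ : Nonempty ((ℕ ⊕ ℕ) ≃ N) := nonempty_equiv_of_countable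
  refine ⟨fun x => θ (Sum.inl x), ?_, fun x => (θ (Sum.inl x)).2, ?_⟩
  · intro x y h
    have := θ.injective (Subtype.ext h)
    simpa using this
  · have : Set.range (fun k : ℕ => ((θ (Sum.inr k) : N) : ℕ)) ⊆
        N \ Set.range (fun x => ((θ (Sum.inl x) : N) : ℕ)) := by
      rintro _ ⟨k, rfl⟩
      refine ⟨(θ (Sum.inr k)).2, ?_⟩
      rintro ⟨k', hk⟩
      have := θ.injective (Subtype.ext hk)
      simp at this
    refine (Set.infinite_range_of_injective ?_).mono this
    intro k k' h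
    have := θ.injective (Subtype.ext h)
    simpa using this

/-- a subgroup containing the symmetric groups on `M ∪ N` and `N ∪ P` contains the one on
`M ∪ N ∪ P` -/
theorem sym_union (H : Subgroup (Perm ℕ)) (M N P : Set ℕ) (hM : M.Infinite) (hN : N.Infinite)
    (hMN : Disjoint M N) (hMP : Disjoint M P) (hNP : Disjoint N P)
    (h1 : ∀ g : Perm ℕ, Supp g (M ∪ N) → g ∈ H) (h2 : ∀ g : Perm ℕ, Supp g (N ∪ P) → g ∈ H)
    (g : Perm ℕ) (hg : Supp g (M ∪ N ∪ P)) : g ∈ H := by
  classical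
  obtain ⟨φ, hφ1, hφ2, hφ3⟩ := exists_coinf_inj hN
  -- first case
  have caseA : ∀ f : Perm ℕ, Supp f (M ∪ N ∪ P) → (N \ f '' P).Infinite → f ∈ H := by
    intro f hf hinf
    obtain ⟨a, haS, ha⟩ := exists_extend (X := M ∪ N) (B := f '' P ∩ (M ∪ N)) (φ := φ)
      Set.inter_subset_right hφ1.injOn (fun x _ => Or.inr (hφ2 x))
      (hinf.mono (fun x hx => ⟨Or.inr hx.1, fun h => hx.2 h.1⟩))
      (hφ3.mono (fun x hx => ⟨Or.inr hx.1, fun ⟨y, _, hy⟩ => hx.2 ⟨y, hy⟩⟩))
    have haf : ∀ y ∈ P, a (f y) ∈ N ∪ P := by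
      intro y hy
      by_cases hc : f y ∈ M ∪ N
      · rw [ha (f y) ⟨⟨y, hy, rfl⟩, hc⟩]
        exact Or.inl (hφ2 _)
      · rw [haS _ hc]
        have := hf.mem (x := y) (Or.inr hy)
        rcases this with h | h
        · exact absurd h hc
        · exact Or.inr h
    have hafN : ∀ y ∈ P, a (f y) ∈ N → a (f y) ∈ Set.range φ := by
      intro y hy hyN
      by_cases hc : f y ∈ M ∪ N
      · exact ⟨f y, (ha (f y) ⟨⟨y, hy, rfl⟩, hc⟩).symm⟩
      · rw [haS _ hc] at hyN
        exact absurd (Or.inr hyN) hc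
    obtain ⟨b, hbS, hb⟩ := exists_extend (X := N ∪ P) (B := (a * f) '' P) (φ := ⇑((a * f)⁻¹ : Perm ℕ))
      (by rintro _ ⟨y, hy, rfl⟩; exact haf y hy) ((a * f)⁻¹ : Perm ℕ).injective.injOn
      (by
        rintro _ ⟨y, hy, rfl⟩
        rw [pinv_apply]
        exact Or.inr hy)
      (hφ3.mono (fun x hx => ⟨Or.inl hx.1, by
        rintro ⟨y, hy, rfl⟩
        exact hx.2 (hafN y hy hx.1)⟩))
      (hN.mono (fun x hx => ⟨Or.inl hx, by
        rintro ⟨_, ⟨y, hy, rfl⟩, h⟩
        rw [pinv_apply] at h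
        rw [h] at hy
        exact Set.disjoint_left.1 hNP hx hy⟩))
    have hbaf : b * a * f ∈ H := by
      apply h1
      intro x hx
      by_cases hxP : x ∈ P
      · have := hb ((a * f) x) ⟨x, hxP, rfl⟩
        rw [pinv_apply] at this
        exact this
      · have hx3 : x ∉ M ∪ N ∪ P := fun h => h.elim hx hxP
        rw [Perm.mul_apply, Perm.mul_apply, hf x hx3, haS x hx, hbS x]
        exact fun h => h.elim (fun h => hx (Or.inr h)) hxP
    have hb' : b ∈ H := h2 b hbS
    have ha' : a ∈ H := h1 a haS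
    have : f = a⁻¹ * (b⁻¹ * (b * a * f)) := by group
    rw [this]
    exact H.mul_mem (H.inv_mem ha') (H.mul_mem (H.inv_mem hb') hbaf)
  -- second case: moving an infinite set into `N`
  have caseB : ∀ Q : Set ℕ, Q.Infinite → Disjoint Q N → Q ⊆ M ∪ P →
      (∀ c : Perm ℕ, Supp c (Q ∪ N) → c ∈ H) →
      (Q \ g '' P).Infinite → g ∈ H := by
    intro Q hQ hQN hQX hQH hinf
    obtain ⟨c, hcS, hc⟩ := exists_extend (X := Q ∪ N) (B := Q \ g '' P) (φ := φ)
      (fun x hx => Or.inl hx.1) hφ1.injOn (fun x _ => Or.inr (hφ2 x))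
      (hN.mono (fun x hx => ⟨Or.inr hx, fun h => Set.disjoint_left.1 hQN h.1 hx⟩))
      (hQ.mono (fun x hx => ⟨Or.inl hx, by
        rintro ⟨y, _, rfl⟩
        exact Set.disjoint_left.1 hQN hx (hφ2 y)⟩))
    have hcH : c ∈ H := hQH c hcS
    have hcg : c * g ∈ H := by
      apply caseA
      · refine Supp.mul (hcS.mono ?_) hg
        rintro x (hx | hx)
        · rcases hQX hx with h | h
          · exact Or.inl (Or.inl h)
          · exact Or.inr h
        · exact Or.inl (Or.inr hx)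
      · refine (hinf.image (f := φ) hφ1.injOn).mono ?_
        rintro _ ⟨x, hx, rfl⟩
        refine ⟨hφ2 x, ?_⟩
        rintro ⟨y, hy, hxy⟩
        rw [← hc x hx, Perm.mul_apply] at hxy
        have := c.injective hxy
        exact hx.2 ⟨y, hy, this⟩
    have : g = c⁻¹ * (c * g) := by group
    rw [this]
    exact H.mul_mem (H.inv_mem hcH) hcg
  by_cases hA : (N \ g '' P).Infinite
  · exact caseA g hg hA
  by_cases hB : (M \ g '' P).Infinite
  · exact caseB M hM hMN (fun x hx => Or.inl hx) h1 hB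
  by_cases hC : (P \ g '' P).Infinite
  · refine caseB P (hC.mono (fun x hx => hx.1)) hNP.symm (fun x hx => Or.inr hx) ?_ hC
    intro c hc
    exact h2 c (by rwa [Set.union_comm])
  · exfalso
    rw [Set.not_infinite] at hA hB hC
    have hsub : g '' (M ∪ N) ⊆ (N \ g '' P) ∪ (M \ g '' P) ∪ (P \ g '' P) := by
      rintro _ ⟨x, hx, rfl⟩
      have h3 : g x ∈ M ∪ N ∪ P := hg.mem (Or.inl hx)
      have h4 : g x ∉ g '' P := by
        rintro ⟨y, hy, hxy⟩
        rw [g.injective hxy] at hy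
        rcases hx with hx | hx
        · exact Set.disjoint_left.1 hMP hx hy
        · exact Set.disjoint_left.1 hNP hx hy
      rcases h3 with (h | h) | h
      · exact Or.inl (Or.inr ⟨h, h4⟩)
      · exact Or.inl (Or.inl ⟨h, h4⟩)
      · exact Or.inr ⟨h, h4⟩
    have hfin : (g '' (M ∪ N)).Finite := ((hA.union hB).union hC).subset hsub
    have hinf : (g '' (M ∪ N)).Infinite :=
      (hM.mono Set.subset_union_left).image g.injective.injOn
    exact hinf hfin

/-- an uncountable almost disjoint family -/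
def ad (r : ℕ → Bool) : Set (List Bool) := Set.range fun n => List.ofFn (fun i : Fin n => r i)

theorem ad_infinite (r : ℕ → Bool) : (ad r).Infinite := by
  refine Set.infinite_range_of_injective ?_
  intro n m h
  have := congrArg List.length h
  simpa using this

theorem ad_inter {r s : ℕ → Bool} (h : r ≠ s) : (ad r ∩ ad s).Finite := by
  obtain ⟨k, hk⟩ : ∃ k, r k ≠ s k := by
    by_contra hc
    push Not at hc
    exact h (funext hc)
  refine (Set.finite_range (fun n : Fin (k + 1) => List.ofFn (fun i : Fin n.1 => r i))).subset ?_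
  rintro _ ⟨⟨n, rfl⟩, ⟨m, hm⟩⟩
  have hl : m = n := by
    have := congrArg List.length hm
    simpa using this
  subst hl
  have hmk : m < k + 1 := by
    by_contra hc
    have hlt : k < m := by omega
    have h1 := List.ofFn_injective hm
    have h2 := congrFun h1 ⟨k, hlt⟩
    exact hk h2.symm
  exact ⟨⟨m, hmk⟩, rfl⟩

/-- **Small index property** of the symmetric group on a countable set, for countable index. -/
theorem small_index (H : Subgroup (Perm ℕ)) (Φ : Perm ℕ → ℕ)
    (hΦ : ∀ g h : Perm ℕ, Φ g = Φ h → g⁻¹ * h ∈ H) :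
    ∃ A : Finset ℕ, ∀ g : Perm ℕ, (∀ a ∈ A, g a = a) → g ∈ H := by
  classical
  obtain ⟨S, hS1, hS2, hS3⟩ := exists_sym_le H Φ hΦ
  have i1 := hS1.to_subtype
  have i2 := hS2.to_subtype
  obtain ⟨θ⟩ : Nonempty ((List Bool ⊕ ℕ) ≃ S) := nonempty_equiv_of_countable
  set M : Set ℕ := Set.range (fun l : List Bool => ((θ (Sum.inl l) : S) : ℕ)) with hMdef
  set N : Set ℕ := Set.range (fun k : ℕ => ((θ (Sum.inr k) : S) : ℕ)) with hNdef
  have injl : Function.Injective (fun l : List Bool => ((θ (Sum.inl l) : S) : ℕ)) := by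
    intro l l' h
    have := θ.injective (Subtype.ext h)
    simpa using this
  have injr : Function.Injective (fun k : ℕ => ((θ (Sum.inr k) : S) : ℕ)) := by
    intro l l' h
    have := θ.injective (Subtype.ext h)
    simpa using this
  have hM : M.Infinite := Set.infinite_range_of_injective injl
  have hN : N.Infinite := Set.infinite_range_of_injective injr
  have hMN : Disjoint M N := by
    rw [Set.disjoint_left]
    rintro _ ⟨l, rfl⟩ ⟨k, hk⟩
    have := θ.injective (Subtype.ext hk)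
    simp at this
  have hMS : M ⊆ S := by rintro _ ⟨l, rfl⟩; exact (θ (Sum.inl l)).2
  have hNS : N ⊆ S := by rintro _ ⟨l, rfl⟩; exact (θ (Sum.inr l)).2
  have hSMN : S = M ∪ N := by
    apply Set.Subset.antisymm
    · intro x hx
      obtain ⟨p, hp⟩ := θ.surjective ⟨x, hx⟩
      have hp' : (θ p : ℕ) = x := congrArg Subtype.val hp
      rcases p with l | k
      · exact Or.inl ⟨l, hp'⟩
      · exact Or.inr ⟨k, hp'⟩
    · exact Set.union_subset hMS hNS
  -- the sets `Λ r`
  let Λ : (ℕ → Bool) → Set ℕ := fun r => (fun l : List Bool => ((θ (Sum.inl l) : S) : ℕ)) '' ad r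
  have hΛ : ∀ r, (Λ r).Infinite := fun r => (ad_infinite r).image injl.injOn
  have hΛM : ∀ r, Λ r ⊆ M := by
    rintro r _ ⟨l, _, rfl⟩
    exact ⟨l, rfl⟩
  have hperm : ∀ r, ∃ g : Perm ℕ, (∀ x ∈ N, g x = x) ∧ (∀ x, x ∉ S → g x ∈ Λ r) ∧
      (∀ y ∈ Λ r, ∃ x, x ∉ S ∧ g x = y) := by
    intro r
    have := (hΛ r).to_subtype
    obtain ⟨ψ⟩ : Nonempty ((Sᶜ : Set ℕ) ≃ Λ r) := nonempty_equiv_of_countable
    let φ : ℕ → ℕ := fun x => if h : x ∈ Sᶜ then ψ ⟨x, h⟩ else x
    have hφ1 : ∀ x (h : x ∈ Sᶜ), φ x = ψ ⟨x, h⟩ := fun x h => by simp only [φ, dif_pos h]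
    have hφ2 : ∀ x, x ∈ S → φ x = x := fun x h => by
      have : ¬ (x ∈ Sᶜ) := fun h' => h' h
      simp only [φ, dif_neg this]
    obtain ⟨g, _, hg⟩ := exists_extend (X := Set.univ) (B := Sᶜ ∪ N) (φ := φ)
      (Set.subset_univ _) (by
        rintro x hx y hy hxy
        rcases hx with hx | hx <;> rcases hy with hy | hy
        · rw [hφ1 x hx, hφ1 y hy] at hxy
          have := ψ.injective (Subtype.ext hxy)
          exact congrArg Subtype.val this
        · rw [hφ1 x hx, hφ2 y (hNS hy)] at hxy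
          have h3 : y ∈ M := hΛM r (hxy ▸ (ψ ⟨x, hx⟩).2)
          exact absurd hy (Set.disjoint_left.1 hMN h3)
        · rw [hφ1 y hy, hφ2 x (hNS hx)] at hxy
          have h3 : x ∈ M := hΛM r (hxy ▸ (ψ ⟨y, hy⟩).2)
          exact absurd hx (Set.disjoint_left.1 hMN h3)
        · rw [hφ2 x (hNS hx), hφ2 y (hNS hy)] at hxy
          exact hxy) (fun x _ => Set.mem_univ _)
      (hM.mono (fun x hx => ⟨Set.mem_univ _, by
        rintro (h | h)
        · exact h (hMS hx)
        · exact Set.disjoint_left.1 hMN hx h⟩))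
      (hS2.mono (fun x hx => ⟨Set.mem_univ _, by
        rintro ⟨y, hy | hy, hxy⟩
        · rw [hφ1 y hy] at hxy
          exact hx (hMS (hΛM r (hxy ▸ (ψ ⟨y, hy⟩).2)))
        · rw [hφ2 y (hNS hy)] at hxy
          exact hx (hxy ▸ hNS hy)⟩))
    refine ⟨g, fun x hx => ?_, fun x hx => ?_, fun y hy => ?_⟩
    · rw [hg x (Or.inr hx), hφ2 x (hNS hx)]
    · rw [hg x (Or.inl hx), hφ1 x hx]
      exact (ψ ⟨x, hx⟩).2
    · refine ⟨ψ.symm ⟨y, hy⟩, (ψ.symm ⟨y, hy⟩).2, ?_⟩
      rw [hg _ (Or.inl (ψ.symm ⟨y, hy⟩).2), hφ1 _ (ψ.symm ⟨y, hy⟩).2]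
      simp
  choose G hG1 hG2 hG3 using hperm
  -- two of them lie in the same coset
  obtain ⟨r, s, hrs, hcoset⟩ : ∃ r s : ℕ → Bool, r ≠ s ∧ Φ (G s) = Φ (G r) := by
    by_contra hc
    push Not at hc
    have hinj : Function.Injective (fun r => Φ (G r)) := by
      intro r s h
      by_contra hne
      exact hc r s hne h.symm
    have h2 : Function.Injective (fun t : Set ℕ => (fun n => decide (n ∈ t) : ℕ → Bool)) := by
      intro t t' h
      ext n
      have := congrFun h n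
      simpa using this
    exact Function.cantor_injective _ (hinj.comp h2)
  have hH : (G s)⁻¹ * G r ∈ H := hΦ _ _ hcoset
  set h : Perm ℕ := (G s)⁻¹ * G r with hh
  -- the exceptional set
  have hfin : (Λ r ∩ Λ s).Finite := by
    have : Λ r ∩ Λ s = (fun l : List Bool => ((θ (Sum.inl l) : S) : ℕ)) '' (ad r ∩ ad s) :=
      (Set.image_inter injl).symm
    rw [this]
    exact (ad_inter hrs).image _
  have hfin2 : (⇑((G r)⁻¹ : Perm ℕ) '' (Λ r ∩ Λ s)).Finite := hfin.image _
  refine ⟨hfin2.toFinset, ?_⟩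
  intro g hg
  set P : Set ℕ := Sᶜ \ (⇑((G r)⁻¹ : Perm ℕ) '' (Λ r ∩ Λ s)) with hP
  have hPS : ∀ x ∈ P, h x ∈ S := by
    intro x hx
    by_contra hc
    have h3 : G r x ∈ Λ r := hG2 r x hx.1
    have h4 : G s (h x) ∈ Λ s := hG2 s _ hc
    rw [hh, Perm.mul_apply, papply_inv] at h4
    exact hx.2 ⟨G r x, ⟨h3, h4⟩, pinv_apply _ _⟩
  have hNh : ∀ x ∈ N, h x = x := by
    intro x hx
    rw [hh, Perm.mul_apply, hG1 r x hx, Perm.inv_eq_iff_eq, hG1 s x hx]
  have hNP2 : ∀ c : Perm ℕ, Supp c (N ∪ P) → c ∈ H := by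
    intro c hc
    have h5 : h * c * h⁻¹ ∈ H := by
      apply hS3
      intro x hx
      rw [Perm.mul_apply, Perm.mul_apply, hc (h⁻¹ x), papply_inv]
      rintro (h' | h')
      · have := hNh _ h'
        rw [papply_inv] at this
        exact hx (this ▸ hNS h')
      · have := hPS _ h'
        rw [papply_inv] at this
        exact hx this
    have h6 : c = h⁻¹ * (h * c * h⁻¹) * h := by group
    rw [h6]
    exact H.mul_mem (H.mul_mem (H.inv_mem hH) h5) hH
  refine sym_union H M N P hM hN hMN ?_ ?_ (fun c hc => hS3 c (hSMN ▸ hc)) hNP2 g ?_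
  · exact Set.disjoint_left.2 (fun x hx hx' => hx'.1 (hMS hx))
  · exact Set.disjoint_left.2 (fun x hx hx' => hx'.1 (hNS hx))
  · intro x hx
    apply hg
    rw [Set.Finite.mem_toFinset]
    by_contra hc
    apply hx
    by_cases hxS : x ∈ S
    · exact Or.inl (hSMN ▸ hxS)
    · exact Or.inr ⟨hxS, hc⟩

end Pool.Agent.V11234.AH
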